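import Pool.Agent.Q87.Finitary.Imprimitive

/-!
# A transitive finitary 2-group on the natural numbers and a finite building block
-/

namespace Pool.Agent.Q87.Finitary

open MulAction Subgroup

/-- Finitary permutations of the natural numbers preserving all dyadic partitions. -/
def dyad : Subgroup (Equiv.Perm ℕ) where
  carrier := {t | {x : ℕ | t x ≠ x}.Finite ∧
    ∀ k x y, (t x / 2 ^ k = t y / 2 ^ k ↔ x / 2 ^ k = y / 2 ^ k)}
  one_mem' := ⟨by simp, fun k x y => Iff.rfl⟩
  mul_mem' := by
    rintro a b ⟨ha, ha'⟩ ⟨hb, hb'⟩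
    refine ⟨(ha.union hb).subset ?_, fun k x y => ?_⟩
    · intro x hx
      by_contra hcon
      have h1 : a x = x := by
        by_contra h; exact hcon (Or.inl h)
      have h2 : b x = x := by
        by_contra h; exact hcon (Or.inr h)
      exact hx (by rw [Equiv.Perm.mul_apply, h2, h1])
    · rw [Equiv.Perm.mul_apply, Equiv.Perm.mul_apply, ha', hb']
  inv_mem' := by
    rintro a ⟨ha, ha'⟩
    refine ⟨ha.subset ?_, fun k x y => ?_⟩
    · intro x hx h
      exact hx (by rw [Equiv.Perm.inv_eq_iff_eq]; exact h.symm)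
    · rw [← ha' k (a⁻¹ x) (a⁻¹ y)]
      have e1 : a (a⁻¹ x) = x := a.apply_symm_apply x
      have e2 : a (a⁻¹ y) = y := a.apply_symm_apply y
      rw [e1, e2]

lemma dyad_pow {t : Equiv.Perm ℕ} (ht : t ∈ dyad) : ∃ n : ℕ, t ^ 2 ^ n = 1 := by
  obtain ⟨hfin, hiff⟩ := ht
  obtain ⟨N, hN⟩ := hfin.bddAbove
  obtain ⟨n, hn⟩ : ∃ n, N < 2 ^ n := ⟨N, Nat.lt_two_pow_self⟩
  have hfix : ∀ x, 2 ^ n ≤ x → t x = x := by
    intro x hx
    by_contra hne
    have := hN hne
    omega
  have hlt : ∀ x, x < 2 ^ n → t x < 2 ^ n := by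
    intro x hx
    by_contra hcon
    have h1 := hfix _ (not_lt.1 hcon)
    have h2 := t.injective h1
    omega
  refine ⟨n, ?_⟩
  have key : ∀ j, j ≤ n → (∀ x, (t ^ 2 ^ j) x / 2 ^ (n - j) = x / 2 ^ (n - j)) := by
    intro j
    induction j with
    | zero =>
      intro _ x
      rw [pow_zero, pow_one, Nat.sub_zero]
      by_cases hx : x < 2 ^ n
      · rw [Nat.div_eq_of_lt hx, Nat.div_eq_of_lt (hlt x hx)]
      · rw [hfix x (not_lt.1 hx)]
    | succ j ih =>
      intro hj x
      have ihj := ih (by omega)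
      set u := t ^ 2 ^ j with hu
      have hu' : ∀ k x y, (u x / 2 ^ k = u y / 2 ^ k ↔ x / 2 ^ k = y / 2 ^ k) := by
        have ht : t ∈ dyad := ⟨hfin, hiff⟩
        have hmem : u ∈ dyad := Subgroup.pow_mem _ ht _
        exact hmem.2
      have hm : n - j = (n - (j + 1)) + 1 := by omega
      set m := n - (j + 1) with hmdef
      rw [hm] at ihj
      have e1 : (t ^ 2 ^ (j + 1)) x = u (u x) := by
        rw [pow_succ, pow_mul, ← hu, pow_two, Equiv.Perm.mul_apply]
      rw [e1]
      have hdiv : ∀ y : ℕ, y / 2 ^ (m + 1) = y / 2 ^ m / 2 := by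
        intro y; rw [pow_succ, Nat.div_div_eq_div_mul]
      have h1 := ihj x
      have h2 := ihj (u x)
      rw [hdiv, hdiv] at h1 h2
      have h3 := hu' m (u x) x
      by_cases hab : u x / 2 ^ m = x / 2 ^ m
      · rw [h3.2 hab, hab]
      · have h4 : u (u x) / 2 ^ m ≠ u x / 2 ^ m := fun h => hab (h3.1 h)
        omega
  have h := key n le_rfl
  ext x
  have := h x
  simpa using this

lemma dyad_isPGroup : IsPGroup 2 dyad := by
  rintro ⟨t, ht⟩
  obtain ⟨n, hn⟩ := dyad_pow ht
  exact ⟨n, Subtype.ext hn⟩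

/-- The involution adding `c` bitwise below `2 ^ n`. -/
def xorPerm (n c : ℕ) (hc : c < 2 ^ n) : Equiv.Perm ℕ where
  toFun x := if x < 2 ^ n then x ^^^ c else x
  invFun x := if x < 2 ^ n then x ^^^ c else x
  left_inv x := by
    by_cases hx : x < 2 ^ n
    · have h1 : x ^^^ c < 2 ^ n := Nat.xor_lt_two_pow hx hc
      simp only [if_pos hx, if_pos h1]
      rw [Nat.xor_assoc, Nat.xor_self, Nat.xor_zero]
    · simp only [if_neg hx]
  right_inv x := by
    by_cases hx : x < 2 ^ n
    · have h1 : x ^^^ c < 2 ^ n := Nat.xor_lt_two_pow hx hc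
      simp only [if_pos hx, if_pos h1]
      rw [Nat.xor_assoc, Nat.xor_self, Nat.xor_zero]
    · simp only [if_neg hx]

lemma xorPerm_mem (n c : ℕ) (hc : c < 2 ^ n) : xorPerm n c hc ∈ dyad := by
  refine ⟨(Set.finite_lt_nat (2 ^ n)).subset ?_, ?_⟩
  · intro x hx
    by_contra h
    apply hx
    change (if x < 2 ^ n then x ^^^ c else x) = x
    have h' : ¬ x < 2 ^ n := h
    rw [if_neg h']
  · intro k x y
    change ((if x < 2 ^ n then x ^^^ c else x) / 2 ^ k =
      (if y < 2 ^ n then y ^^^ c else y) / 2 ^ k ↔ _)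
    have hxor : ∀ a b : ℕ, (a ^^^ c) / 2 ^ k = (b ^^^ c) / 2 ^ k ↔ a / 2 ^ k = b / 2 ^ k := by
      intro a b
      rw [Nat.xor_div_two_pow, Nat.xor_div_two_pow]
      constructor
      · intro h
        have h1 := congrArg (fun z => z ^^^ (c / 2 ^ k)) h
        simpa [Nat.xor_assoc] using h1
      · intro h; rw [h]
    have hmix : ∀ a b : ℕ, a < 2 ^ n → ¬ b < 2 ^ n →
        ((a ^^^ c) / 2 ^ k = b / 2 ^ k ↔ a / 2 ^ k = b / 2 ^ k) := by
      intro a b ha hb
      have ha' : a ^^^ c < 2 ^ n := Nat.xor_lt_two_pow ha hc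
      rcases le_or_gt k n with hk | hk
      · obtain ⟨l, rfl⟩ : ∃ l, n = k + l := ⟨n - k, by omega⟩
        have hlt : ∀ z, z < 2 ^ (k + l) → z / 2 ^ k < 2 ^ l := by
          intro z hz
          rw [pow_add] at hz
          exact Nat.div_lt_of_lt_mul hz
        have hge : 2 ^ l ≤ b / 2 ^ k := by
          rw [Nat.le_div_iff_mul_le (by positivity), ← pow_add, add_comm]
          omega
        have h1 := hlt _ ha
        have h2 := hlt _ ha'
        constructor <;> intro h <;> omega
      · have hpow : 2 ^ n ≤ 2 ^ k := Nat.pow_le_pow_right (by norm_num) hk.le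
        rw [Nat.div_eq_of_lt (lt_of_lt_of_le ha' hpow), Nat.div_eq_of_lt (lt_of_lt_of_le ha hpow)]
    by_cases hx : x < 2 ^ n <;> by_cases hy : y < 2 ^ n
    · rw [if_pos hx, if_pos hy]; exact hxor x y
    · rw [if_pos hx, if_neg hy]; exact hmix x y hx hy
    · rw [if_neg hx, if_pos hy]
      constructor
      · intro h; exact ((hmix y x hy hx).1 h.symm).symm
      · intro h; exact ((hmix y x hy hx).2 h.symm).symm
    · rw [if_neg hx, if_neg hy]

lemma dyad_transitive (x y : ℕ) : ∃ t ∈ dyad, t x = y := by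
  obtain ⟨n, hn⟩ : ∃ n, max x y < 2 ^ n := ⟨max x y, Nat.lt_two_pow_self⟩
  have hx : x < 2 ^ n := lt_of_le_of_lt (le_max_left _ _) hn
  have hy : y < 2 ^ n := lt_of_le_of_lt (le_max_right _ _) hn
  have hc : x ^^^ y < 2 ^ n := Nat.xor_lt_two_pow hx hy
  refine ⟨xorPerm n (x ^^^ y) hc, xorPerm_mem _ _ _, ?_⟩
  change (if x < 2 ^ n then x ^^^ (x ^^^ y) else x) = y
  rw [if_pos hx, ← Nat.xor_assoc, Nat.xor_self, Nat.zero_xor]

/-- The wreath product of the cyclic groups of orders two and four. -/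
abbrev W0 : Type := RegularWreathProduct (Multiplicative (ZMod 2)) (Multiplicative (ZMod 4))

/-- The generator of the top group. -/
def sig : W0 := ⟨1, Multiplicative.ofAdd 1⟩

/-- A generator of the base group. -/
def eps : W0 := ⟨Pi.mulSingle 1 (Multiplicative.ofAdd 1), 1⟩

/-- The commutator of the two generators. -/
def vee : W0 := eps * sig * eps⁻¹ * sig⁻¹

lemma W0_isPGroup : IsPGroup 2 W0 := by
  refine IsPGroup.of_card (n := 6) ?_
  rw [RegularWreathProduct.card]
  simp

lemma vee_mem : vee ∈ commutator W0 :=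
  Subgroup.commutator_mem_commutator (Subgroup.mem_top eps) (Subgroup.mem_top sig)

lemma vee_right : vee.right = 1 := by
  simp [vee, eps, sig]

lemma vee_left (x : Multiplicative (ZMod 4)) : vee.left x =
    (Pi.mulSingle (M := fun _ => Multiplicative (ZMod 2)) 1 (Multiplicative.ofAdd 1)) x *
    ((Pi.mulSingle (M := fun _ => Multiplicative (ZMod 2)) 1 (Multiplicative.ofAdd 1))
      ((Multiplicative.ofAdd 1)⁻¹ * x))⁻¹ := by
  simp [vee, eps, sig]

lemma vee_sq : vee * vee = 1 := by
  ext x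
  · simp only [RegularWreathProduct.mul_left, vee_right, Pi.mul_apply, inv_one, one_mul,
      RegularWreathProduct.one_left, Pi.one_apply]
    generalize vee.left x = a
    revert a
    decide
  · rw [RegularWreathProduct.mul_right, vee_right]; rfl

lemma vee_sig (i : ℤ) : (sig ^ i)⁻¹ * vee * sig ∉ zpowers vee := by
  intro h
  obtain ⟨j, hj⟩ := Subgroup.mem_zpowers_iff.1 h
  have hj' : vee ^ j = 1 ∨ vee ^ j = vee := by
    rcases Int.even_or_odd' j with ⟨m, rfl | rfl⟩
    · left
      rw [zpow_mul]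
      have : vee ^ (2 : ℤ) = 1 := by rw [zpow_ofNat, pow_two, vee_sq]
      rw [this, one_zpow]
    · right
      rw [zpow_add, zpow_mul]
      have : vee ^ (2 : ℤ) = 1 := by rw [zpow_ofNat, pow_two, vee_sq]
      rw [this, one_zpow, one_mul, zpow_one]
  -- compare the top components
  have hr := congrArg (RegularWreathProduct.rightHom) hj
  rw [map_zpow, map_mul, map_mul, map_inv, map_zpow] at hr
  have e1 : RegularWreathProduct.rightHom vee = 1 := vee_right
  have e2 : (RegularWreathProduct.rightHom sig : Multiplicative (ZMod 4)) =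
    Multiplicative.ofAdd 1 := rfl
  rw [e1, e2, one_zpow, mul_one] at hr
  have hi : (Multiplicative.ofAdd (1 : ZMod 4)) ^ i = Multiplicative.ofAdd 1 := by
    rw [eq_comm, inv_mul_eq_one] at hr
    exact hr
  -- powers of sig are determined by their top component
  have hs : ∀ k : ℕ, sig ^ k = ⟨1, (Multiplicative.ofAdd (1 : ZMod 4)) ^ k⟩ := by
    intro k
    induction k with
    | zero => rfl
    | succ k ih =>
      rw [pow_succ, ih, sig, RegularWreathProduct.mul_def, pow_succ]
      congr 1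
  have hsz : ∀ k : ℤ, sig ^ k = ⟨1, (Multiplicative.ofAdd (1 : ZMod 4)) ^ k⟩ := by
    intro k
    obtain ⟨n, rfl | rfl⟩ := k.eq_nat_or_neg
    · rw [zpow_natCast, zpow_natCast, hs]
    · rw [zpow_neg, zpow_natCast, zpow_neg, zpow_natCast, hs]
      ext x
      · simp
      · rfl
  have hsi : sig ^ i = sig := by rw [hsz, hi]; rfl
  rw [hsi] at hj
  have e3 : sig * vee ^ j = vee * sig := by rw [hj]; group
  have e4 := congrArg RegularWreathProduct.left e3
  rcases hj' with h0 | h0
  · rw [h0, mul_one] at e4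
    have e5 := congrFun e4 1
    simp only [RegularWreathProduct.mul_left, vee_right, Pi.mul_apply, vee_left, sig] at e5
    revert e5
    decide
  · rw [h0] at e4
    have e5 := congrFun e4 1
    simp only [RegularWreathProduct.mul_left, vee_right, Pi.mul_apply, vee_left, sig] at e5
    revert e5
    decide

end Pool.Agent.Q87.Finitary
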