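import Mathlib

/-!
# Transitive finitary `p`-groups are totally imprimitive
-/

namespace Pool.Agent.Q87.Finitary

open MulAction Subgroup

/-- In a finite `p`-group `K`, if `M` is a maximal subgroup then it contains the commutator
subgroup. -/
lemma commutator_le_of_isCoatom {p : ℕ} [Fact p.Prime] {K : Type*} [Group K] [Finite K]
    (hK : IsPGroup p K) (M : Subgroup K) (hM : IsCoatom M) : commutator K ≤ M := by
  have hnil : Group.IsNilpotent K := hK.isNilpotent
  have hnc : NormalizerCondition K := Group.normalizerCondition_of_isNilpotent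
  have hMn : M.Normal := NormalizerCondition.normal_of_coatom M hnc hM
  have hne : Nontrivial (K ⧸ M) := QuotientGroup.nontrivial_iff.2 hM.1
  have hq : IsPGroup p (K ⧸ M) := hK.to_quotient M
  have hc : Nontrivial (Subgroup.center (K ⧸ M)) := hq.center_nontrivial
  -- the preimage of the center is everything
  have h1 : (Subgroup.center (K ⧸ M)).comap (QuotientGroup.mk' M) = ⊤ := by
    apply hM.2
    refine lt_of_le_of_ne ?_ ?_
    · intro x hx
      rw [Subgroup.mem_comap]
      have : QuotientGroup.mk' M x = 1 := (QuotientGroup.eq_one_iff x).2 hx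
      rw [this]; exact one_mem _
    · intro h
      obtain ⟨⟨z, hz⟩, hz1⟩ := exists_ne (1 : Subgroup.center (K ⧸ M))
      obtain ⟨x, rfl⟩ := QuotientGroup.mk'_surjective M z
      have : x ∈ M := by rw [h]; exact hz
      apply hz1
      apply Subtype.ext
      exact (QuotientGroup.eq_one_iff x).2 this
  rw [commutator_def, Subgroup.commutator_le]
  intro a _ b _
  have hb : QuotientGroup.mk' M b ∈ Subgroup.center (K ⧸ M) := by
    have : b ∈ (Subgroup.center (K ⧸ M)).comap (QuotientGroup.mk' M) := by rw [h1]; trivial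
    exact this
  rw [Subgroup.mem_center_iff] at hb
  have h2 := hb (QuotientGroup.mk' M a)
  rw [← QuotientGroup.eq_one_iff]
  change QuotientGroup.mk' M (a * b * a⁻¹ * b⁻¹) = 1
  rw [map_mul, map_mul, map_mul, map_inv, map_inv, h2, mul_inv_cancel_right, mul_inv_cancel]

/-- If the finite `p`-group `K` is generated by `A` and an element of its commutator subgroup
then it is generated by `A`. -/
lemma mem_closure_of_mem_commutator {p : ℕ} [Fact p.Prime] {K : Type*} [Group K] [Finite K]
    (hK : IsPGroup p K) (A : Set K) (y : K) (hy : y ∈ commutator K)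
    (hA : closure (insert y A) = ⊤) : closure A = ⊤ := by
  by_contra hne
  obtain ⟨M, hM, hle⟩ := (eq_top_or_exists_le_coatom (closure A)).resolve_left hne
  apply hM.1
  rw [eq_top_iff, ← hA, Subgroup.closure_le]
  intro x hx
  rcases hx with rfl | hx
  · exact commutator_le_of_isCoatom hK M hM hy
  · exact hle (subset_closure hx)

section

variable {Γ : Type*} [Group Γ]

/-- Every finite set of elements lies in a finite subgroup. -/
def LocFin (Γ : Type*) [Group Γ] : Prop :=
  ∀ A : Set Γ, A.Finite → Finite (closure A)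

lemma exists_finite_of_mem_closure {B : Set Γ} {x : Γ} (hx : x ∈ closure B) :
    ∃ A : Set Γ, A.Finite ∧ A ⊆ B ∧ x ∈ closure A := by
  refine Subgroup.closure_induction (p := fun x _ => ∃ A : Set Γ, A.Finite ∧ A ⊆ B ∧
    x ∈ closure A) ?_ ?_ ?_ ?_ hx
  · intro x hx
    exact ⟨{x}, Set.finite_singleton x, by simpa using hx, subset_closure rfl⟩
  · exact ⟨∅, Set.finite_empty, Set.empty_subset _, one_mem _⟩
  · rintro x y _ _ ⟨A, hA1, hA2, hA3⟩ ⟨C, hC1, hC2, hC3⟩
    refine ⟨A ∪ C, hA1.union hC1, Set.union_subset hA2 hC2, mul_mem ?_ ?_⟩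
    · exact closure_mono Set.subset_union_left hA3
    · exact closure_mono Set.subset_union_right hC3
  · rintro x _ ⟨A, hA1, hA2, hA3⟩
    exact ⟨A, hA1, hA2, inv_mem hA3⟩

/-- In a locally finite `p`-group maximal subgroups are normal. -/
lemma normal_of_isCoatom {p : ℕ} [Fact p.Prime] (hΓ : IsPGroup p Γ) (hlf : LocFin Γ)
    (M : Subgroup Γ) (hM : IsCoatom M) : M.Normal := by
  classical
  have hcomm : commutator Γ ≤ M := by
    by_contra hnot
    obtain ⟨y, hy, hyM⟩ := SetLike.not_le_iff_exists.1 hnot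
    have htop : closure (insert y (M : Set Γ)) = ⊤ := by
      apply hM.2
      refine lt_of_le_of_ne ?_ ?_
      · intro x hx; exact subset_closure (Or.inr hx)
      · intro h
        apply hyM
        rw [h]; exact subset_closure (Or.inl rfl)
    -- finite subsets of `M` suffice
    have key : ∀ x ∈ commutator Γ, ∃ A : Set Γ, A.Finite ∧ A ⊆ (M : Set Γ) ∧
        x ∈ (⁅closure (insert y A), closure (insert y A)⁆ : Subgroup Γ) := by
      intro x hx
      have hel : ∀ a : Γ, ∃ A : Set Γ, A.Finite ∧ A ⊆ (M : Set Γ) ∧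
          a ∈ closure (insert y A) := by
        intro a
        have ha : a ∈ closure (insert y (M : Set Γ)) := by rw [htop]; trivial
        obtain ⟨A, hA1, hA2, hA3⟩ := exists_finite_of_mem_closure ha
        refine ⟨A ∩ M, hA1.subset Set.inter_subset_left, Set.inter_subset_right, ?_⟩
        refine closure_mono ?_ hA3
        intro z hz
        rcases hA2 hz with h | h
        · exact Or.inl h
        · exact Or.inr ⟨hz, h⟩
      rw [commutator_def, Subgroup.commutator_def] at hx
      refine Subgroup.closure_induction (p := fun x _ => ∃ A : Set Γ, A.Finite ∧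
        A ⊆ (M : Set Γ) ∧ x ∈ (⁅closure (insert y A), closure (insert y A)⁆ : Subgroup Γ))
        ?_ ?_ ?_ ?_ hx
      · rintro x ⟨a, _, b, _, rfl⟩
        obtain ⟨A, hA1, hA2, hA3⟩ := hel a
        obtain ⟨B, hB1, hB2, hB3⟩ := hel b
        refine ⟨A ∪ B, hA1.union hB1, Set.union_subset hA2 hB2, ?_⟩
        refine Subgroup.commutator_mem_commutator ?_ ?_
        · exact closure_mono (Set.insert_subset_insert Set.subset_union_left) hA3
        · exact closure_mono (Set.insert_subset_insert Set.subset_union_right) hB3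
      · exact ⟨∅, Set.finite_empty, Set.empty_subset _, one_mem _⟩
      · rintro x z _ _ ⟨A, hA1, hA2, hA3⟩ ⟨B, hB1, hB2, hB3⟩
        refine ⟨A ∪ B, hA1.union hB1, Set.union_subset hA2 hB2, mul_mem ?_ ?_⟩
        · refine Subgroup.commutator_mono ?_ ?_ hA3 <;>
            exact closure_mono (Set.insert_subset_insert Set.subset_union_left)
        · refine Subgroup.commutator_mono ?_ ?_ hB3 <;>
            exact closure_mono (Set.insert_subset_insert Set.subset_union_right)
      · rintro x _ ⟨A, hA1, hA2, hA3⟩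
        exact ⟨A, hA1, hA2, inv_mem hA3⟩
    obtain ⟨A, hA1, hA2, hA3⟩ := key y hy
    -- pass to the finite group `K`
    let K : Subgroup Γ := closure (insert y A)
    have hKfin : Finite K := hlf _ (hA1.insert y)
    have hKp : IsPGroup p K := hΓ.to_subgroup K
    have hyK : y ∈ K := subset_closure (Or.inl rfl)
    have hAK : A ⊆ (K : Set Γ) := fun a ha => subset_closure (Or.inr ha)
    let A' : Set K := K.subtype ⁻¹' A
    have himg : K.subtype '' A' = A := by
      rw [Set.image_preimage_eq_iff]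
      intro a ha
      exact ⟨⟨a, hAK ha⟩, rfl⟩
    have h1 : closure A' = ⊤ := by
      refine mem_closure_of_mem_commutator hKp A' ⟨y, hyK⟩ ?_ ?_
      · have : (commutator K).map K.subtype = ⁅K, K⁆ := by
          rw [commutator_def, Subgroup.map_commutator, ← MonoidHom.range_eq_map,
            Subgroup.range_subtype]
        have h2 : y ∈ (commutator K).map K.subtype := by rw [this]; exact hA3
        obtain ⟨z, hz1, hz2⟩ := Subgroup.mem_map.1 h2
        have : z = ⟨y, hyK⟩ := Subtype.ext hz2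
        rwa [← this]
      · apply Subgroup.map_injective K.subtype_injective
        rw [MonoidHom.map_closure, ← MonoidHom.range_eq_map, Subgroup.range_subtype,
          Set.image_insert_eq, himg]
        rfl
    have h2 : y ∈ closure A := by
      have h3 : (closure A').map K.subtype = closure A := by
        rw [MonoidHom.map_closure, himg]
      rw [← h3, h1, ← MonoidHom.range_eq_map, Subgroup.range_subtype]
      exact hyK
    exact hyM ((Subgroup.closure_le M).2 hA2 h2)
  refine ⟨fun m hm g => ?_⟩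
  have h1 : g * m * g⁻¹ * m⁻¹ ∈ M := by
    rw [← commutatorElement_def]
    exact hcomm (Subgroup.commutator_mem_commutator (mem_top _) (mem_top _))
  have h2 : g * m * g⁻¹ = g * m * g⁻¹ * m⁻¹ * m := by group
  rw [h2]; exact mul_mem h1 hm

variable {Ω : Type*} [MulAction Γ Ω]

/-- Every element of the group moves only finitely many points. -/
def FinSupp (Γ Ω : Type*) [Group Γ] [MulAction Γ Ω] : Prop :=
  ∀ g : Γ, {x : Ω | g • x ≠ x}.Finite

lemma locFin_of_finitary [FaithfulSMul Γ Ω] (hfin : FinSupp Γ Ω) : LocFin Γ := by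
  intro A hA
  let U : Set Ω := ⋃ a ∈ A, {x : Ω | a • x ≠ x}
  have hU : U.Finite := hA.biUnion fun a _ => hfin a
  have hout : ∀ g ∈ closure A, ∀ x, x ∉ U → g • x = x := by
    intro g hg
    refine Subgroup.closure_induction (p := fun g _ => ∀ x, x ∉ U → g • x = x) ?_ ?_ ?_ ?_ hg
    · intro a ha x hx
      by_contra hne
      exact hx (Set.mem_biUnion ha hne)
    · intro x _; exact one_smul _ _
    · intro a b _ _ ha hb x hx
      rw [mul_smul, hb x hx, ha x hx]
    · intro a _ ha x hx
      rw [inv_smul_eq_iff, ha x hx]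
  have hin : ∀ g ∈ closure A, ∀ x ∈ U, g • x ∈ U := by
    intro g hg x hx
    by_contra hcon
    have h1 := hout g⁻¹ (inv_mem hg) _ hcon
    rw [inv_smul_smul] at h1
    rw [← h1] at hcon
    exact hcon hx
  have : Finite U := hU
  let f : closure A → (U → U) := fun g x => ⟨g.1 • x.1, hin g.1 g.2 x.1 x.2⟩
  refine Finite.of_injective f ?_
  intro g h hgh
  apply Subtype.ext
  apply FaithfulSMul.eq_of_smul_eq_smul (α := Ω)
  intro x
  by_cases hx : x ∈ U
  · exact congrArg Subtype.val (congrFun hgh ⟨x, hx⟩)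
  · rw [hout _ g.2 x hx, hout _ h.2 x hx]

/-- Orbits of proper subgroups containing a point stabiliser are finite blocks. -/
lemma block_of_stabilizer_le (H : Subgroup Γ) (ω : Ω) (hH : stabilizer Γ ω ≤ H)
    {g : Γ} (hg : g ∉ H) {x : Ω} (hx : x ∈ orbit H ω) : g • x ∉ orbit H ω := by
  intro hgx
  obtain ⟨h, rfl⟩ := hx
  obtain ⟨k, hk⟩ := hgx
  apply hg
  have h1 : (k : Γ)⁻¹ * g * (h : Γ) ∈ stabilizer Γ ω := by
    rw [mem_stabilizer_iff, mul_smul, mul_smul, inv_smul_eq_iff]
    exact hk.symm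
  have h2 := hH h1
  have h3 : g = (k : Γ) * ((k : Γ)⁻¹ * g * (h : Γ)) * (h : Γ)⁻¹ := by group
  rw [h3]
  exact mul_mem (mul_mem k.2 h2) (inv_mem h.2)

lemma orbit_finite (hfin : FinSupp Γ Ω) (H : Subgroup Γ) (ω : Ω) (hH : stabilizer Γ ω ≤ H)
    (hne : H ≠ ⊤) : (orbit H ω).Finite := by
  obtain ⟨g, hg⟩ : ∃ g, g ∉ H := by
    by_contra hcon
    push Not at hcon
    exact hne (eq_top_iff.2 fun x _ => hcon x)
  refine (hfin g).subset ?_
  intro x hx hgx
  exact block_of_stabilizer_le H ω hH hg hx (by rw [hgx]; exact hx)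

/-- A transitive finitary `p`-group on an infinite set has no maximal subgroup containing a point
stabiliser. -/
lemma no_coatom {p : ℕ} [Fact p.Prime] [FaithfulSMul Γ Ω] [IsPretransitive Γ Ω] [Infinite Ω]
    (hΓ : IsPGroup p Γ) (hfin : FinSupp Γ Ω) (ω : Ω) (M : Subgroup Γ) (hM : IsCoatom M)
    (hle : stabilizer Γ ω ≤ M) : False := by
  have hn : M.Normal := normal_of_isCoatom hΓ (locFin_of_finitary hfin) M hM
  obtain ⟨s, hs⟩ : ∃ s, s ∉ M := by
    by_contra hcon
    push Not at hcon
    exact hM.1 (eq_top_iff.2 fun x _ => hcon x)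
  obtain ⟨k, hk⟩ := hΓ s
  have hfinorb := orbit_finite hfin M ω hle hM.1
  have hsup : M ⊔ zpowers s = ⊤ := by
    apply hM.2
    refine lt_of_le_of_ne le_sup_left ?_
    intro h
    apply hs
    rw [h]
    exact (le_sup_right : zpowers s ≤ M ⊔ zpowers s) (mem_zpowers s)
  have hcover : (Set.univ : Set Ω) ⊆ ⋃ i ∈ Finset.range (p ^ k), (fun x => s ^ i • x) ''
      (orbit M ω) := by
    intro x _
    obtain ⟨g, rfl⟩ := exists_smul_eq Γ ω x
    have hg : g ∈ zpowers s ⊔ M := by rw [sup_comm, hsup]; trivial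
    rw [Subgroup.mem_sup_of_normal_right] at hg
    obtain ⟨t, ht, m, hm, rfl⟩ := hg
    obtain ⟨n, rfl⟩ := Subgroup.mem_zpowers_iff.1 ht
    have hpk : 0 < p ^ k := pow_pos (Fact.out : p.Prime).pos k
    have hmod : s ^ n = s ^ (n % ((p ^ k : ℕ) : ℤ)).toNat := by
      have h1 : 0 ≤ n % ((p ^ k : ℕ) : ℤ) := Int.emod_nonneg _ (by exact_mod_cast hpk.ne')
      rw [← zpow_natCast, Int.toNat_of_nonneg h1]
      conv_lhs => rw [← Int.emod_add_mul_ediv n ((p ^ k : ℕ) : ℤ)]
      rw [zpow_add, zpow_mul, zpow_natCast, hk, one_zpow, mul_one]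
    rw [Set.mem_iUnion₂]
    refine ⟨(n % ((p ^ k : ℕ) : ℤ)).toNat, ?_, m • ω, ⟨⟨m, hm⟩, rfl⟩, ?_⟩
    · rw [Finset.mem_range]
      have h1 : n % ((p ^ k : ℕ) : ℤ) < ((p ^ k : ℕ) : ℤ) :=
        Int.emod_lt_of_pos _ (by exact_mod_cast hpk)
      have h2 : 0 ≤ n % ((p ^ k : ℕ) : ℤ) := Int.emod_nonneg _ (by exact_mod_cast hpk.ne')
      omega
    · change s ^ _ • m • ω = (s ^ n * m) • ω
      rw [mul_smul, hmod]
  have : (Set.univ : Set Ω).Finite := by
    refine Set.Finite.subset ?_ hcover
    refine Set.Finite.biUnion (Finset.finite_toSet _) ?_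
    intro i _
    exact hfinorb.image _
  exact Set.infinite_univ this

lemma sup_zpowers_ne_top {p : ℕ} [Fact p.Prime] [FaithfulSMul Γ Ω] [IsPretransitive Γ Ω]
    [Infinite Ω] (hΓ : IsPGroup p Γ) (hfin : FinSupp Γ Ω) (ω : Ω) (H : Subgroup Γ)
    (hle : stabilizer Γ ω ≤ H) (hne : H ≠ ⊤) (s : Γ) : H ⊔ zpowers s ≠ ⊤ := by
  intro htop
  have hs : s ∉ H := by
    intro hs
    apply hne
    rw [← htop, eq_comm, sup_eq_left, zpowers_le]
    exact hs
  obtain ⟨M, hHM, hmax⟩ := zorn_le_nonempty₀ {K : Subgroup Γ | s ∉ K} (by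
    intro c hc hchain K hK
    have hcne : c.Nonempty := ⟨K, hK⟩
    refine ⟨sSup c, ?_, fun L hL => le_sSup hL⟩
    intro hmem
    rw [Subgroup.mem_sSup_of_directedOn hcne hchain.directedOn] at hmem
    obtain ⟨L, hL, hsL⟩ := hmem
    exact hc hL hsL) H hs
  have hMs : s ∉ M := hmax.prop
  refine no_coatom hΓ hfin ω M ⟨?_, ?_⟩ (hle.trans hHM)
  · intro h
    rw [h] at hMs
    exact hMs (mem_top _)
  · intro K hK
    have hsK : s ∈ K := by
      by_contra hcon
      have := hmax.le_of_ge hcon hK.le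
      exact absurd this (not_le_of_gt hK)
    rw [eq_top_iff, ← htop]
    refine sup_le (hHM.trans hK.le) ?_
    rw [zpowers_le]; exact hsK

/-- A set `B` is a block: each group element either fixes it or moves it off itself. -/
def IsBlk (Γ : Type*) {Ω : Type*} [Group Γ] [MulAction Γ Ω] (B : Set Ω) : Prop :=
  ∀ g : Γ, (∀ x, g • x ∈ B ↔ x ∈ B) ∨ (∀ x ∈ B, g • x ∉ B)

/-- Transitive finitary `p`-groups are totally imprimitive. -/
theorem exists_finite_block {p : ℕ} [Fact p.Prime] [FaithfulSMul Γ Ω] [IsPretransitive Γ Ω]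
    (hΓ : IsPGroup p Γ) (hfin : FinSupp Γ Ω) (ω : Ω) (F : Set Ω) (hF : F.Finite) :
    ∃ B : Set Ω, B.Finite ∧ F ⊆ B ∧ ω ∈ B ∧ IsBlk Γ B := by
  classical
  cases finite_or_infinite Ω with
  | inl hΩ =>
    exact ⟨Set.univ, Set.finite_univ, Set.subset_univ _, trivial, fun g => Or.inl fun x => by simp⟩
  | inr hΩ =>
    have key : ∃ H : Subgroup Γ, stabilizer Γ ω ≤ H ∧ H ≠ ⊤ ∧ F ⊆ orbit H ω := by
      refine Set.Finite.induction_on (motive := fun F _ => ∃ H : Subgroup Γ,
        stabilizer Γ ω ≤ H ∧ H ≠ ⊤ ∧ F ⊆ orbit H ω) F hF ?_ ?_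
      · refine ⟨stabilizer Γ ω, le_rfl, ?_, Set.empty_subset _⟩
        intro htop
        obtain ⟨x, hx⟩ := exists_ne ω
        obtain ⟨g, rfl⟩ := exists_smul_eq Γ ω x
        apply hx
        have : g ∈ stabilizer Γ ω := by rw [htop]; trivial
        exact this
      · rintro a F _ _ ⟨H, h1, h2, h3⟩
        obtain ⟨g, rfl⟩ := exists_smul_eq Γ ω a
        refine ⟨H ⊔ zpowers g, h1.trans le_sup_left,
          sup_zpowers_ne_top hΓ hfin ω H h1 h2 g, ?_⟩
        intro x hx
        rcases hx with rfl | hx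
        · exact ⟨⟨g, (le_sup_right : zpowers g ≤ _) (mem_zpowers g)⟩, rfl⟩
        · obtain ⟨k, rfl⟩ := h3 hx
          exact ⟨⟨k.1, (le_sup_left : H ≤ _) k.2⟩, rfl⟩
    obtain ⟨H, h1, h2, h3⟩ := key
    refine ⟨orbit H ω, orbit_finite hfin H ω h1 h2, h3, mem_orbit_self ω, ?_⟩
    intro g
    by_cases hg : g ∈ H
    · left
      intro x
      constructor
      · rintro ⟨k, hk⟩
        refine ⟨⟨g, hg⟩⁻¹ * k, ?_⟩
        change ((⟨g, hg⟩⁻¹ * k : H) : Γ) • ω = x
        have : (k : Γ) • ω = g • x := hk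
        rw [Subgroup.coe_mul, mul_smul, this, Subgroup.coe_inv, inv_smul_smul]
      · rintro ⟨k, rfl⟩
        exact ⟨⟨g, hg⟩ * k, by
          change ((⟨g, hg⟩ * k : H) : Γ) • ω = g • ((k : Γ) • ω)
          rw [Subgroup.coe_mul, mul_smul]⟩
    · right
      intro x hx
      exact block_of_stabilizer_le H ω h1 hg hx

end

end Pool.Agent.Q87.Finitary
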