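import Pool.Agent.Q87.Finitary.Imprimitive

/-!
# Transitive Sylow subgroups of finitary permutation groups
-/

namespace Pool.Agent.Q87.Finitary

open MulAction Subgroup

section finite

variable {p : ℕ} [Fact p.Prime] {H : Type*} [Group H] [Finite H]

lemma le_of_inf_normal_le (P : Sylow p H) (N : Subgroup H) [hN : N.Normal] (T : Subgroup H)
    (hT : IsPGroup p T) (hTN : T ≤ N) (hle : (P : Subgroup H) ⊓ N ≤ T) : T ≤ P := by
  obtain ⟨Q, hQ⟩ := hT.exists_le_sylow
  obtain ⟨g, hg⟩ := MulAction.exists_smul_eq H Q P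
  have h1 : T.map (MulAut.conj g).toMonoidHom ≤ (P : Subgroup H) ⊓ N := by
    rintro _ ⟨t, ht, rfl⟩
    refine ⟨?_, ?_⟩
    · rw [← hg]
      exact Subgroup.smul_mem_pointwise_smul t (MulAut.conj g) _ (hQ ht)
    · exact hN.conj_mem t (hTN ht) g
  have h2 : Nat.card T ≤ Nat.card ((P : Subgroup H) ⊓ N : Subgroup H) := by
    rw [← Subgroup.card_map_of_injective (K := T) (f := (MulAut.conj g).toMonoidHom)
      (MulAut.conj g).injective]
    exact Subgroup.card_le_of_le h1
  have h3 : (P : Subgroup H) ⊓ N = T := Subgroup.eq_of_le_of_card_ge hle h2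
  rw [← h3]
  exact inf_le_left

lemma le_sup_normal (P : Sylow p H) (N : Subgroup H) [hN : N.Normal] (T : Subgroup H)
    (hT : ∀ t ∈ T, ∃ k : ℕ, t ^ p ^ k ∈ N) (hP : (P : Subgroup H) ≤ T) :
    T ≤ (P : Subgroup H) ⊔ N := by
  have h1 : IsPGroup p (T.map (QuotientGroup.mk' N)) := by
    rintro ⟨_, t, ht, rfl⟩
    obtain ⟨k, hk⟩ := hT t ht
    refine ⟨k, Subtype.ext ?_⟩
    change (QuotientGroup.mk' N t) ^ p ^ k = 1
    rw [← map_pow]
    exact (QuotientGroup.eq_one_iff _).2 hk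
  have h2 := (P.mapSurjective (QuotientGroup.mk'_surjective N)).is_maximal' h1
    (by
      rw [Sylow.coe_mapSurjective]
      exact Subgroup.map_mono hP)
  rw [Sylow.coe_mapSurjective] at h2
  have h3 : T ≤ ((P : Subgroup H).map (QuotientGroup.mk' N)).comap (QuotientGroup.mk' N) := by
    rw [← h2]; exact Subgroup.le_comap_map _ _
  rw [Subgroup.comap_map_eq, QuotientGroup.ker_mk'] at h3
  exact h3

end finite

variable {p : ℕ} [Fact p.Prime] {G : Type*} [Group G] {Ω : Type*} [MulAction G Ω]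

/-- The elements that fix every point outside `B`. -/
def fixOut (G : Type*) {Ω : Type*} [Group G] [MulAction G Ω] (B : Set Ω) : Subgroup G where
  carrier := {g | ∀ x, x ∉ B → g • x = x}
  one_mem' := fun x _ => one_smul _ x
  mul_mem' := by
    intro a b ha hb x hx
    rw [mul_smul, hb x hx, ha x hx]
  inv_mem' := by
    intro a ha x hx
    rw [inv_smul_eq_iff, ha x hx]

lemma smul_mem_of_fixOut {B : Set Ω} {g : G} (hg : g ∈ fixOut G B) {x : Ω} (hx : x ∈ B) :
    g • x ∈ B := by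
  by_contra hcon
  have h1 := (fixOut G B).inv_mem hg _ hcon
  rw [inv_smul_smul] at h1
  rw [← h1] at hcon
  exact hcon hx

lemma fixOut_finite [FaithfulSMul G Ω] {B : Set Ω} (hB : B.Finite) : Finite (fixOut G B) := by
  have : Finite B := hB
  let f : fixOut G B → (B → B) := fun g x => ⟨g.1 • x.1, smul_mem_of_fixOut g.2 x.2⟩
  refine Finite.of_injective f ?_
  intro g h hgh
  apply Subtype.ext
  apply FaithfulSMul.eq_of_smul_eq_smul (α := Ω)
  intro x
  by_cases hx : x ∈ B
  · exact congrArg Subtype.val (congrFun hgh ⟨x, hx⟩)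
  · rw [g.2 x hx, h.2 x hx]

/-- The main local statement: for a finite block `B` of the transitive Sylow subgroup `S` the
intersection of `S` with the group of all elements supported on `B` is a Sylow subgroup there. -/
lemma sylow_fixOut [FaithfulSMul G Ω] (S : Sylow p G)
    (hS : ∀ x y : Ω, ∃ s ∈ (S : Subgroup G), s • x = y) (B : Set Ω) (hB : B.Finite) (ω : Ω)
    (hω : ω ∈ B)
    (hblk : ∀ s ∈ (S : Subgroup G), (∀ x, s • x ∈ B ↔ x ∈ B) ∨ (∀ x ∈ B, s • x ∉ B)) :
    ∃ P : Sylow p (fixOut G B), (P : Subgroup (fixOut G B)) =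
      (S : Subgroup G).subgroupOf (fixOut G B) := by
  classical
  have hfin : Finite (fixOut G B) := fixOut_finite hB
  set GB := fixOut G B with hGB
  -- the setwise stabiliser of `B` in `S`
  let D : Subgroup G :=
    { carrier := {s | s ∈ (S : Subgroup G) ∧ ∀ x, s • x ∈ B ↔ x ∈ B}
      one_mem' := ⟨one_mem _, fun x => by rw [one_smul]⟩
      mul_mem' := by
        rintro a b ⟨ha, ha'⟩ ⟨hb, hb'⟩
        exact ⟨mul_mem ha hb, fun x => by rw [mul_smul, ha', hb']⟩
      inv_mem' := by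
        rintro a ⟨ha, ha'⟩
        exact ⟨inv_mem ha, fun x => by rw [← ha' (a⁻¹ • x), smul_inv_smul]⟩ }
  have hDS : D ≤ (S : Subgroup G) := fun s hs => hs.1
  have hDconj : ∀ d ∈ D, ∀ g ∈ GB, d * g * d⁻¹ ∈ GB := by
    intro d hd g hg x hx
    have h1 : d⁻¹ • x ∉ B := fun h => hx ((D.inv_mem hd).2 x |>.1 h)
    rw [mul_smul, mul_smul, hg _ h1, smul_inv_smul]
  have hDN : D ≤ Subgroup.normalizer (GB : Set G) := by
    intro d hd
    rw [Subgroup.mem_normalizer_iff]
    intro g
    constructor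
    · intro hg; exact hDconj d hd g hg
    · intro hg
      have := hDconj d⁻¹ (D.inv_mem hd) _ hg
      have h2 : d⁻¹ * (d * g * d⁻¹) * d⁻¹⁻¹ = g := by group
      rwa [h2] at this
  have hDp : IsPGroup p D := S.2.to_le hDS
  let f : D →* MulAut GB := (Subgroup.normalizerMonoidHom GB).comp (Subgroup.inclusion hDN)
  letI : MulAction D (Sylow p GB) := MulAction.compHom (Sylow p GB) f
  obtain ⟨P, hP⟩ := hDp.nonempty_fixed_point_of_prime_not_dvd_card (Sylow p GB)
    (not_dvd_card_sylow p GB)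
  have hPD : ∀ (d : D) (x : GB), x ∈ P → (f d) x ∈ P := by
    intro d x hx
    have h1 : f d • P = P := hP d
    rw [← h1]
    exact Subgroup.smul_mem_pointwise_smul x (f d) _ hx
  let P' : Subgroup G := (P : Subgroup GB).map GB.subtype
  have hP'G : P' ≤ GB := by
    rintro _ ⟨x, _, rfl⟩; exact x.2
  have hP'conj : ∀ d ∈ D, ∀ h ∈ P', d * h * d⁻¹ ∈ P' := by
    rintro d hd _ ⟨x, hx, rfl⟩
    exact ⟨f ⟨d, hd⟩ x, hPD ⟨d, hd⟩ x hx, rfl⟩
  have hP'p : IsPGroup p P' := P.2.map GB.subtype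
  have hP'fin : Finite P' := by
    have : Finite P := inferInstance
    exact Finite.of_surjective (fun x : (P : Subgroup GB) => (⟨x.1.1, x.1, x.2, rfl⟩ : P'))
      (by rintro ⟨_, x, hx, rfl⟩; exact ⟨⟨x, hx⟩, rfl⟩)
  obtain ⟨n, hn⟩ := IsPGroup.iff_card.1 hP'p
  have hpow : ∀ h ∈ P', h ^ p ^ n = 1 := by
    intro h hh
    have h1 : (⟨h, hh⟩ : P') ^ Nat.card P' = 1 := pow_card_eq_one'
    rw [hn] at h1
    exact congrArg Subtype.val h1
  -- the group generated by all conjugates
  let T : Subgroup G := closure {g | ∃ s ∈ (S : Subgroup G), ∃ h ∈ P', g = s * h * s⁻¹}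
  have loc : ∀ g ∈ T, ∀ s ∈ (S : Subgroup G), ∃ h ∈ P', ∀ x ∈ B, g • s • x = s • h • x := by
    intro g hg
    refine Subgroup.closure_induction (p := fun g _ => ∀ s ∈ (S : Subgroup G), ∃ h ∈ P',
      ∀ x ∈ B, g • s • x = s • h • x) ?_ ?_ ?_ ?_ hg
    · rintro g ⟨s0, hs0, h0, hh0, rfl⟩ s hs
      have ht : s0⁻¹ * s ∈ (S : Subgroup G) := mul_mem (inv_mem hs0) hs
      rcases hblk _ ht with h1 | h1
      · have hD : s0⁻¹ * s ∈ D := ⟨ht, h1⟩
        refine ⟨(s0⁻¹ * s)⁻¹ * h0 * (s0⁻¹ * s)⁻¹⁻¹, hP'conj _ (D.inv_mem hD) h0 hh0, ?_⟩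
        intro x _
        rw [← mul_smul, ← mul_smul]
        congr 1
        group
      · refine ⟨1, one_mem _, ?_⟩
        intro x hx
        have h2 := hP'G hh0 _ (h1 x hx)
        have h3 : (s0 * h0 * s0⁻¹) • s • x = s0 • h0 • (s0⁻¹ * s) • x := by
          rw [← mul_smul, ← mul_smul, ← mul_smul]
          congr 1
          group
        rw [h3, h2, ← mul_smul, one_smul]
        congr 1
        group
    · intro s _
      exact ⟨1, one_mem _, fun x _ => by rw [one_smul, one_smul]⟩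
    · intro a b _ _ ha hb s hs
      obtain ⟨h1, hh1, e1⟩ := ha s hs
      obtain ⟨h2, hh2, e2⟩ := hb s hs
      refine ⟨h1 * h2, mul_mem hh1 hh2, ?_⟩
      intro x hx
      rw [mul_smul, e2 x hx, e1 _ (smul_mem_of_fixOut (hP'G hh2) hx), mul_smul]
    · intro a _ ha s hs
      obtain ⟨h, hh, e⟩ := ha s hs
      refine ⟨h⁻¹, inv_mem hh, ?_⟩
      intro x hx
      have h1 := e (h⁻¹ • x) (smul_mem_of_fixOut (hP'G (inv_mem hh)) hx)
      rw [smul_inv_smul] at h1
      rw [inv_smul_eq_iff]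
      exact h1.symm
  have hTp : IsPGroup p T := by
    rintro ⟨g, hg⟩
    refine ⟨n, Subtype.ext ?_⟩
    change g ^ p ^ n = 1
    apply FaithfulSMul.eq_of_smul_eq_smul (α := Ω)
    intro y
    obtain ⟨s, hs, rfl⟩ := hS ω y
    obtain ⟨h, hh, e⟩ := loc g hg s hs
    have key : ∀ m : ℕ, ∀ x ∈ B, g ^ m • s • x = s • h ^ m • x := by
      intro m
      induction m with
      | zero => intro x _; simp
      | succ m ih =>
        intro x hx
        rw [pow_succ', mul_smul, ih x hx,
          e _ (smul_mem_of_fixOut (hP'G (pow_mem hh m)) hx), pow_succ', mul_smul]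
    rw [key _ _ hω, hpow h hh, one_smul, one_smul]
  have hST : (S : Subgroup G) ≤ Subgroup.normalizer (T : Set G) := by
    have hc : ∀ s ∈ (S : Subgroup G), ∀ g ∈ T, s * g * s⁻¹ ∈ T := by
      intro s hs g hg
      refine Subgroup.closure_induction (p := fun g _ => s * g * s⁻¹ ∈ T) ?_ ?_ ?_ ?_ hg
      · rintro g ⟨s0, hs0, h0, hh0, rfl⟩
        apply Subgroup.subset_closure
        exact ⟨s * s0, mul_mem hs hs0, h0, hh0, by group⟩
      · simp
      · intro a b _ _ ha hb
        have : s * (a * b) * s⁻¹ = (s * a * s⁻¹) * (s * b * s⁻¹) := by group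
        rw [this]; exact mul_mem ha hb
      · intro a _ ha
        have : s * a⁻¹ * s⁻¹ = (s * a * s⁻¹)⁻¹ := by group
        rw [this]; exact inv_mem ha
    intro s hs
    rw [Subgroup.mem_normalizer_iff]
    intro g
    constructor
    · intro hg; exact hc s hs g hg
    · intro hg
      have := hc s⁻¹ (inv_mem hs) _ hg
      have h2 : s⁻¹ * (s * g * s⁻¹) * s⁻¹⁻¹ = g := by group
      rwa [h2] at this
  have hSTp : IsPGroup p ((S : Subgroup G) ⊔ T : Subgroup G) :=
    IsPGroup.to_sup_of_normal_right' S.2 hTp hST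
  have hTS : T ≤ (S : Subgroup G) := by
    have := S.is_maximal' hSTp le_sup_left
    rw [← this]; exact le_sup_right
  have hP'S : P' ≤ (S : Subgroup G) := by
    intro h hh
    apply hTS
    apply Subgroup.subset_closure
    exact ⟨1, one_mem _, h, hh, by group⟩
  refine ⟨P, ?_⟩
  symm
  refine P.is_maximal' ?_ ?_
  · exact S.2.comap_subtype
  · intro x hx
    rw [Subgroup.mem_subgroupOf]
    exact hP'S ⟨x, hx, rfl⟩

end Pool.Agent.Q87.Finitary
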